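import Pool.Agent.Helper52.Grid.Defs

/-! # From tours to used edges (`S_Use`) -/

namespace Pool.Agent.Helper17.Etsp

open Pool.Agent.Helper52.Grid

theorem rot_cons_eq {a : Pt} {l l' : List Pt} (hn : (a :: l).Nodup)
    (h : (a :: l).IsRotated (a :: l')) : l = l' := by
  obtain ⟨n, hn2, hr⟩ := List.isRotated_iff_mod.1 h
  rcases Nat.eq_zero_or_pos n with h0 | h0
  · subst h0
    rw [List.rotate_zero] at hr
    exact (List.cons.inj hr).2
  · rcases Nat.lt_or_ge n (a :: l).length with h1 | h1
    · exfalso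
      have h2 : ((a :: l).rotate n)[0]? = some a := by rw [hr]; rfl
      rw [List.getElem?_rotate (by simp)] at h2
      rw [Nat.zero_add, Nat.mod_eq_of_lt h1] at h2
      have h3 : (a :: l)[0]? = some a := rfl
      have h4 : (0 : ℕ) = n :=
        (List.getElem?_inj (i := 0) (j := n) (by simp) hn).1 (h3.trans h2.symm)
      omega
    · have h2 : n = (a :: l).length := le_antisymm hn2 h1
      rw [h2, List.rotate_length] at hr
      exact (List.cons.inj hr).2

theorem rot_split {T : List Pt} {a : Pt} (ha : a ∈ T) : ∃ l, T.IsRotated (a :: l) := by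
  obtain ⟨s, t, rfl⟩ := List.append_of_mem ha
  exact ⟨t ++ s, by simpa using (List.isRotated_append (l := s) (l' := a :: t))⟩

theorem Next.mem {T : List Pt} {a b : Pt} (h : Next T a b) : a ∈ T ∧ b ∈ T := by
  obtain ⟨l, hl⟩ := h
  constructor
  · exact hl.mem_iff.2 (by simp)
  · exact hl.mem_iff.2 (by simp)

theorem Con.mem {T : List Pt} {a b : Pt} (h : Con T a b) : a ∈ T ∧ b ∈ T := by
  rcases h with h | h
  · exact Next.mem h
  · exact (Next.mem h).symm

theorem Con.symm' {T : List Pt} {a b : Pt} (h : Con T a b) : Con T b a := Or.symm h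

/-- successor and predecessor -/
theorem two_nbrs {T : List Pt} (hT : T.Nodup) (h3 : 3 ≤ T.length) {a : Pt} (ha : a ∈ T) :
    ∃ b c, b ≠ c ∧ Next T a b ∧ Next T c a ∧ ∀ d, Con T a d ↔ (d = b ∨ d = c) := by
  obtain ⟨l, hl⟩ := rot_split ha
  have hlen := hl.perm.length_eq
  have hnd : (a :: l).Nodup := hl.nodup_iff.1 hT
  match l, hl, hlen, hnd with
  | [], _, hlen, _ => simp at hlen; omega
  | b :: m, hl, hlen, hnd =>
    rcases List.eq_nil_or_concat m with rfl | ⟨m', c, rfl⟩
    · simp at hlen; omega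
    · have hl2 : T.IsRotated (c :: a :: b :: m') := by
        refine hl.trans ?_
        have := (List.isRotated_append (l := a :: b :: m') (l' := [c]))
        simpa using this
      have hbc : b ≠ c := by
        rintro rfl
        simp at hnd
      refine ⟨b, c, hbc, ⟨_, hl⟩, ⟨_, hl2⟩, fun d => ⟨?_, ?_⟩⟩
      · rintro (⟨l', hl'⟩ | ⟨l', hl'⟩)
        · left
          have := rot_cons_eq hnd (hl.symm.trans hl')
          exact (List.cons.inj this).1.symm
        · right
          have h5 : T.IsRotated (a :: (l' ++ [d])) := by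
            refine hl'.trans ?_
            have := (List.isRotated_append (l := [d]) (l' := a :: l'))
            simpa using this
          have := rot_cons_eq hnd (hl.symm.trans h5)
          have h6 : (b :: m') ++ [c] = l' ++ [d] := by simpa using this
          have h7 := List.append_inj' h6 rfl
          exact (List.cons.inj h7.2).1.symm
      · rintro (rfl | rfl)
        · exact Or.inl ⟨_, hl⟩
        · exact Or.inr ⟨_, hl2⟩

theorem step_h {h v : ℕ → ℕ → ℕ} {t x y : ℕ} (hs : Edge h v t (x, y) (x + 1, y)) :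
    h x y = t := by
  rcases hs with (⟨-, h1⟩ | ⟨h1, -⟩) | (⟨h1, -⟩ | ⟨h1, -⟩)
  · exact h1
  · simp [Prod.ext_iff] at h1
  · simp [Prod.ext_iff] at h1
    omega
  · simp [Prod.ext_iff] at h1

theorem step_v {h v : ℕ → ℕ → ℕ} {t x y : ℕ} (hs : Edge h v t (x, y) (x, y + 1)) :
    v x y = t := by
  rcases hs with (⟨h1, -⟩ | ⟨-, h1⟩) | (⟨h1, -⟩ | ⟨h1, -⟩)
  · simp [Prod.ext_iff] at h1
  · exact h1
  · simp [Prod.ext_iff] at h1
  · simp [Prod.ext_iff] at h1
    omega

theorem Edge.symm' {h v : ℕ → ℕ → ℕ} {t : ℕ} {a b : Pt} (hs : Edge h v t a b) :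
    Edge h v t b a := Or.symm hs

theorem edge_of_con {h v : ℕ → ℕ → ℕ} {T : List Pt} (hT : Tour h v T) {a b : Pt}
    (hc : Con T a b) : Edge h v 0 a b ∨ Edge h v 2 a b := by
  rcases hc with hc | hc
  · exact hT.edge _ _ hc
  · rcases hT.edge _ _ hc with h1 | h1
    · exact Or.inl h1.symm
    · exact Or.inr h1.symm

/-- the neighbours of a point -/
theorem edge_cases {h v : ℕ → ℕ → ℕ} {t x y : ℕ} {b : Pt}
    (hs : Edge h v t (x + 1, y + 1) b) :
    b = (x + 2, y + 1) ∨ b = (x, y + 1) ∨ b = (x + 1, y + 2) ∨ b = (x + 1, y) := by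
  obtain ⟨p, q⟩ := b
  rcases hs with (⟨h1, -⟩ | ⟨h1, -⟩) | (⟨h1, -⟩ | ⟨h1, -⟩)
  · left; simpa using h1
  · right; right; left; simpa using h1
  · right; left
    have h2 := (Prod.mk.inj h1).1
    have h3 := (Prod.mk.inj h1).2
    simp only at h2 h3
    simp only [Prod.mk.injEq]
    omega
  · right; right; right
    have h2 := (Prod.mk.inj h1).1
    have h3 := (Prod.mk.inj h1).2
    simp only at h2 h3
    simp only [Prod.mk.injEq]
    omega

theorem s_use : S_Use := by
  intro h v N T hbox hT h3
  classical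
  refine ⟨fun x y => decide (Con T (x, y) (x + 1, y)), fun x y => decide (Con T (x, y) (x, y + 1)),
    ?_, ⟨fun x y => by simp, fun x y => by simp⟩⟩
  constructor
  · intro x y hx
    simpa using hT.forced (x, y) (x + 1, y) (Or.inl (Or.inl ⟨rfl, hx⟩))
  · intro x y h0 h2
    by_contra hc
    have hc' : Con T (x, y) (x + 1, y) := by simpa using hc
    rcases edge_of_con hT hc' with h1 | h1
    · exact h0 (step_h h1)
    · exact h2 (step_h h1)
  · intro x y hx
    simpa using hT.forced (x, y) (x, y + 1) (Or.inl (Or.inr ⟨rfl, hx⟩))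
  · intro x y h0 h2
    by_contra hc
    have hc' : Con T (x, y) (x, y + 1) := by simpa using hc
    rcases edge_of_con hT hc' with h1 | h1
    · exact h0 (step_v h1)
    · exact h2 (step_v h1)
  · intro x y hu
    have hc : Con T (x, y) (x + 1, y) := by simpa using hu
    exact ⟨(hT.mem _).1 (Con.mem hc).1, (hT.mem _).1 (Con.mem hc).2⟩
  · intro x y hu
    have hc : Con T (x, y) (x, y + 1) := by simpa using hu
    exact ⟨(hT.mem _).1 (Con.mem hc).1, (hT.mem _).1 (Con.mem hc).2⟩
  · intro x y hV
    have ha : (x + 1, y + 1) ∈ T := (hT.mem _).2 hV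
    obtain ⟨b, c, hbc, hb, hc, hd⟩ := two_nbrs hT.nodup h3 ha
    have e1 : Con T (x + 1, y + 1) (x + 1 + 1, y + 1) ↔
        (((x + 2, y + 1) : Pt) = b ∨ ((x + 2, y + 1) : Pt) = c) := hd _
    have e2 : Con T (x, y + 1) (x + 1, y + 1) ↔ (((x, y + 1) : Pt) = b ∨ ((x, y + 1) : Pt) = c) :=
      ⟨fun h => (hd _).1 (Or.symm h), fun h => Or.symm ((hd _).2 h)⟩
    have e3 : Con T (x + 1, y + 1) (x + 1, y + 1 + 1) ↔
        (((x + 1, y + 2) : Pt) = b ∨ ((x + 1, y + 2) : Pt) = c) := hd _
    have e4 : Con T (x + 1, y) (x + 1, y + 1) ↔ (((x + 1, y) : Pt) = b ∨ ((x + 1, y) : Pt) = c) :=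
      ⟨fun h => (hd _).1 (Or.symm h), fun h => Or.symm ((hd _).2 h)⟩
    have hb' : b = (x + 2, y + 1) ∨ b = (x, y + 1) ∨ b = (x + 1, y + 2) ∨ b = (x + 1, y) := by
      rcases edge_of_con hT (Or.inl hb) with h1 | h1
      · exact edge_cases h1
      · exact edge_cases h1
    have hc' : c = (x + 2, y + 1) ∨ c = (x, y + 1) ∨ c = (x + 1, y + 2) ∨ c = (x + 1, y) := by
      rcases edge_of_con hT (Or.inr hc : Con T (x + 1, y + 1) c) with h1 | h1
      · exact edge_cases h1
      · exact edge_cases h1
    simp only [e1, e2, e3, e4]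
    rcases hb' with rfl | rfl | rfl | rfl <;> rcases hc' with rfl | rfl | rfl | rfl <;>
      first
        | exact absurd rfl hbc
        | simp [Prod.ext_iff]
  · intro S hSh hSv a b ha hb hSa
    have key : ∀ p q, Next T p q → (S p ↔ S q) := by
      intro p q hpq
      have hedge : ∀ t, Edge h v t p q → (S p ↔ S q) := by
        intro t ht
        rcases ht with (⟨h1, -⟩ | ⟨h1, -⟩) | (⟨h1, -⟩ | ⟨h1, -⟩)
        · subst h1
          exact hSh p.1 p.2 (decide_eq_true (Or.inl hpq : Con T p (p.1 + 1, p.2)))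
        · subst h1
          exact hSv p.1 p.2 (decide_eq_true (Or.inl hpq : Con T p (p.1, p.2 + 1)))
        · subst h1
          exact (hSh q.1 q.2 (decide_eq_true (Or.inr hpq : Con T q (q.1 + 1, q.2)))).symm
        · subst h1
          exact (hSv q.1 q.2 (decide_eq_true (Or.inr hpq : Con T q (q.1, q.2 + 1)))).symm
      rcases hT.edge _ _ hpq with h1 | h1
      · exact hedge _ h1
      · exact hedge _ h1
    have hwalk : ∀ (l : List Pt) (m : List Pt) (p : Pt), T.IsRotated (p :: l ++ m) → S p →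
        ∀ q ∈ l, S q := by
      intro l
      induction l with
      | nil => intro m p _ _ q hq; simp at hq
      | cons c l ih =>
        intro m p hp hSp q hq
        have hSc : S c := (key p c ⟨l ++ m, by simpa using hp⟩).1 hSp
        rcases List.mem_cons.1 hq with rfl | hq
        · exact hSc
        · refine ih (m ++ [p]) c ?_ hSc q hq
          refine hp.trans ?_
          have := (List.isRotated_append (l := [p]) (l' := c :: l ++ m))
          simpa using this
    have haT := (hT.mem a).2 ha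
    have hbT := (hT.mem b).2 hb
    obtain ⟨l, hl⟩ := rot_split haT
    have hb2 : b ∈ a :: l := hl.mem_iff.1 hbT
    rcases List.mem_cons.1 hb2 with rfl | hb3
    · exact hSa
    · exact hwalk l [] a (by simpa using hl) hSa b hb3

end Pool.Agent.Helper17.Etsp
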